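import Pool.Agent.K9h59.CF.Ker

set_option autoImplicit false

/-! The exponential sum over the integers with restricted digits at the small multiples of `1 / g ^ m`. -/

namespace Pool.Agent.K9h59.WY

open Finset
open Pool.Agent.K9h59.CF
open Pool.Agent.H807R2.Dav (ee norm_ee ee_add ee_zero)

/-- the kernel at `h / g ^ m` -/
noncomputable def kr (g : ℕ) (D : ℕ → Finset ℕ) (m : ℕ) (h : ℤ) : ℝ :=
  ‖∑ v ∈ S g D m, ee (v * ((h : ℝ) / ((g ^ m : ℕ) : ℝ)))‖

lemma kr_nonneg (g : ℕ) (D : ℕ → Finset ℕ) (m : ℕ) (h : ℤ) : 0 ≤ kr g D m h := norm_nonneg _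

lemma kr_le (g : ℕ) (D : ℕ → Finset ℕ) (m : ℕ) (h : ℤ) : kr g D m h ≤ (S g D m).card := by
  unfold kr
  refine (norm_sum_le _ _).trans ?_
  simp only [norm_ee, sum_const, nsmul_eq_mul, mul_one]
  exact le_rfl

lemma ee_neg (x : ℝ) : ee (-x) = (starRingEnd ℂ) (ee x) := by
  have h1 : ee (-x) * ee x = 1 := by rw [← ee_add, neg_add_cancel, ee_zero]
  have h2 : (starRingEnd ℂ) (ee x) * ee x = 1 := by
    rw [mul_comm, Complex.mul_conj, Complex.normSq_eq_norm_sq, norm_ee]
    norm_num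
  have h3 : ee x ≠ 0 := by
    intro h
    rw [h, mul_zero] at h1
    exact zero_ne_one h1
  exact mul_right_cancel₀ h3 (h1.trans h2.symm)

lemma kr_neg (g : ℕ) (D : ℕ → Finset ℕ) (m : ℕ) (h : ℤ) : kr g D m (-h) = kr g D m h := by
  unfold kr
  have e : ∀ v : ℕ, ee (v * (((-h : ℤ) : ℝ) / ((g ^ m : ℕ) : ℝ))) =
      (starRingEnd ℂ) (ee (v * ((h : ℝ) / ((g ^ m : ℕ) : ℝ)))) := by
    intro v
    rw [← ee_neg]
    congr 1
    push_cast
    ring
  rw [sum_congr rfl fun v _ => e v, ← map_sum, RCLike.norm_conj]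

/-- small frequencies -/
lemma ker_low {g m r : ℕ} {κ : ℝ} {D : ℕ → Finset ℕ} (h : Dg g m κ D) (hr : r ≤ m) :
    ∑ t ∈ range (g ^ r), kr g D m t ≤ (S g D m).card * ((g : ℝ) ^ κ) ^ r := by
  have hg0 : 0 < g := by have := h.hg; omega
  have hM : 0 < g ^ m := Nat.pow_pos hg0
  have h1 := ker_gen h hM 0 0 (Ico (m - r) m) (by
    intro i hi
    rw [mem_Ico] at hi
    exact mem_range.2 hi.2) (range (g ^ r)) 1 zero_le_one (by
    intro t₀ ht₀
    have hsub : (range (g ^ r)).filter (fun t => ∀ i ∈ Ico (m - r) m, dg g (g ^ m) i t = dg g (g ^ m) i t₀) ⊆ {t₀} := by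
      intro t ht
      rw [mem_filter] at ht
      rw [mem_singleton]
      have h2 := pf_eq (M := g ^ m) hg0 (m - r) t t₀ r (fun i h3 h4 => ht.2 i (mem_Ico.2 ⟨h3, by omega⟩))
      have h5 : ∀ s : ℕ, s < g ^ r → pf g (g ^ m) (m - r) s = 0 := by
        intro s hs
        unfold pf
        apply Nat.div_eq_of_lt
        calc g ^ (m - r) * s < g ^ (m - r) * g ^ r := Nat.mul_lt_mul_of_pos_left hs (Nat.pow_pos hg0)
          _ = g ^ m := by rw [← pow_add]; congr 1; omega
      have h6 : ∀ s : ℕ, pf g (g ^ m) (m - r + r) s = s := by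
        intro s
        unfold pf
        have : m - r + r = m := by omega
        rw [this, Nat.mul_div_cancel_left _ hM]
      rw [h5 t (mem_range.1 ht.1), h5 t₀ (mem_range.1 ht₀), h6, h6] at h2
      simpa using h2
    have h3 := card_le_card hsub
    rw [card_singleton] at h3
    exact_mod_cast h3)
  have h2 : (Ico (m - r) m).card = r := by rw [Nat.card_Ico]; omega
  rw [h2, one_mul] at h1
  refine le_trans (le_of_eq (sum_congr rfl fun t _ => ?_)) h1
  rw [norm_SS_Sh]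
  unfold kr
  congr 1
  refine sum_congr rfl fun v _ => ?_
  congr 1
  push_cast
  ring

/-- frequencies up to `H` -/
lemma ker_upto {g m H : ℕ} {κ : ℝ} {D : ℕ → Finset ℕ} (h : Dg g m κ D) (hH1 : 1 ≤ H) (hH : H ≤ g ^ m) :
    ∑ t ∈ range H, kr g D m t ≤ (S g D m).card * ((g : ℝ) * H) ^ κ := by
  have hg3 := h.hg
  have hg1 : 1 < g := by omega
  have hg0 : (0 : ℝ) < g := by exact_mod_cast (by omega : 0 < g)
  obtain ⟨r, hr1, hr2, hr3⟩ : ∃ r : ℕ, r ≤ m ∧ H ≤ g ^ r ∧ g ^ r ≤ g * H := by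
    rcases Nat.lt_or_ge 1 H with h1 | h1
    · refine ⟨Nat.clog g H, Nat.clog_le_of_le_pow hH, Nat.le_pow_clog hg1 H, ?_⟩
      have h2 := Nat.pow_pred_clog_lt_self hg1 h1
      have h3 : 0 < Nat.clog g H := Nat.clog_pos hg1 h1
      have h4 : g ^ Nat.clog g H = g * g ^ (Nat.clog g H).pred := by
        rw [← pow_succ']
        congr 1
        rw [Nat.pred_eq_sub_one]
        omega
      rw [h4]
      exact Nat.mul_le_mul_left g h2.le
    · refine ⟨0, by omega, by simpa using h1, ?_⟩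
      rw [pow_zero]
      exact Nat.mul_pos (by omega) (by omega)
  have h1 := ker_low h hr1
  have h2 : ∑ t ∈ range H, kr g D m t ≤ ∑ t ∈ range (g ^ r), kr g D m t := by
    apply sum_le_sum_of_subset_of_nonneg
    · intro t ht
      exact mem_range.2 (lt_of_lt_of_le (mem_range.1 ht) hr2)
    · intro t _ _
      exact kr_nonneg _ _ _ _
  refine (h2.trans h1).trans ?_
  apply mul_le_mul_of_nonneg_left _ (Nat.cast_nonneg _)
  rw [← Real.rpow_natCast, ← Real.rpow_mul hg0.le, mul_comm κ, Real.rpow_mul hg0.le, Real.rpow_natCast]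
  apply Real.rpow_le_rpow (by positivity) _ h.hκ
  exact_mod_cast hr3

end Pool.Agent.K9h59.WY
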