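import Pool.Agent.K9h59.WY.A
import Pool.Agent.TH181.MW.HuaB

set_option autoImplicit false

/-! Moments of the supremum over the linear coefficient, over the integers with restricted digits. -/

namespace Pool.Agent.K9h59.WY

open Finset
open Pool.Agent.K9h59.CF
open Pool.Agent.H807R2.Dav (ee norm_ee ee_add ee_zero)
open Pool.Agent.W928.MW (e sm)
open Pool.Agent.TH181.MW (LS AA ph TT Lam ph_id ph_le mem_LS weyl' weyl_step Lam_zero Lam_nonzero)

/-- the differenced sum -/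
noncomputable def W (k N J : ℕ) (t : ℝ) : ℝ := (∑ l ∈ LS (Icc (-(N : ℤ)) N) J, TT k N t 0 l).re

lemma TT_xi (k N : ℕ) (t ξ : ℝ) (l : List ℤ) (hl : 2 ≤ l.length) : TT k N t ξ l = TT k N t 0 l := by
  unfold TT
  refine sum_congr rfl fun n _ => ?_
  rw [ph_id l hl n]
  simp

lemma W_sup (k N j : ℕ) (hj : 1 ≤ j) (t ξ : ℝ) :
    ‖sm k N t ξ‖ ^ (2 ^ (j + 1)) ≤ (2 * (N : ℝ) + 1) ^ (2 ^ (j + 1) - (j + 1) - 1) * W k N (j + 1) t := by
  have h1 := weyl' k N j t ξ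
  unfold W
  have h2 : ∑ l ∈ LS (Icc (-(N : ℤ)) N) (j + 1), TT k N t ξ l = ∑ l ∈ LS (Icc (-(N : ℤ)) N) (j + 1), TT k N t 0 l := by
    refine sum_congr rfl fun l hl => ?_
    rw [mem_LS] at hl
    exact TT_xi k N t ξ l (by omega)
  rw [h2] at h1
  exact h1

lemma W_nonneg (k N j : ℕ) (t : ℝ) : 0 ≤ W k N (j + 1) t := by
  have h1 := weyl_step k N j t 0
  have h2 : 0 ≤ (∑ l ∈ LS (Icc (-(N : ℤ)) N) j, ‖TT k N t 0 l‖) ^ 2 := sq_nonneg _
  have h3 : (0 : ℝ) < (2 * (N : ℝ) + 1) ^ j := by positivity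
  by_contra hcon
  push Not at hcon
  have h4 : (2 * (N : ℝ) + 1) ^ j * W k N (j + 1) t < 0 := mul_neg_of_pos_of_neg h3 hcon
  unfold W at h4
  linarith

lemma W_eq (k N J : ℕ) (t : ℝ) : W k N J t = ∑ z ∈ Lam N J, (e (t * ((ph (fun n => n ^ k) z.1 z.2 : ℤ) : ℝ))).re := by
  unfold W Lam
  rw [sum_sigma, Complex.re_sum]
  refine sum_congr rfl fun l _ => ?_
  unfold TT
  rw [Complex.re_sum]
  refine sum_congr rfl fun n _ => ?_
  simp

lemma sum_W (g m k N J : ℕ) (D : ℕ → Finset ℕ) :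
    ∑ v ∈ S g D m, W k N J ((v : ℝ) / ((g ^ m : ℕ) : ℝ)) ≤ ∑ z ∈ Lam N J, kr g D m (ph (fun n => n ^ k) z.1 z.2) := by
  simp only [W_eq]
  rw [sum_comm]
  refine sum_le_sum fun z _ => ?_
  have h1 : ∀ v : ℕ, e ((v : ℝ) / ((g ^ m : ℕ) : ℝ) * ((ph (fun n => n ^ k) z.1 z.2 : ℤ) : ℝ)) =
      ee (v * (((ph (fun n => n ^ k) z.1 z.2 : ℤ) : ℝ) / ((g ^ m : ℕ) : ℝ))) := by
    intro v
    have h : ∀ x : ℝ, e x = ee x := by
      intro x
      unfold Pool.Agent.W928.MW.e Pool.Agent.H807R2.Dav.ee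
      rfl
    rw [h]
    congr 1
    ring
  simp only [h1]
  rw [← Complex.re_sum]
  exact Complex.re_le_norm _

/-- the bound -/
lemma moment {g m k N J : ℕ} {κ R : ℝ} {D : ℕ → Finset ℕ} (h : Dg g m κ D) (hJ : J < k) (hm : 2 ^ J * N ^ k + 1 ≤ g ^ m)
    (hR : ∀ n : ℕ, 1 ≤ n → n ≤ 2 ^ J * N ^ k → (2 * (n.divisors.card : ℝ)) ^ J * k ≤ R) (hR0 : 0 ≤ R) :
    ∑ v ∈ S g D m, W k N J ((v : ℝ) / ((g ^ m : ℕ) : ℝ)) ≤
      (S g D m).card * ((J + k) * (2 * (N : ℝ) + 1) ^ J + 2 * R * ((g : ℝ) * (2 ^ J * N ^ k + 1 : ℕ)) ^ κ) := by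
  classical
  refine (sum_W g m k N J D).trans ?_
  rw [← sum_filter_add_sum_filter_not (Lam N J) (fun z => ph (fun n => n ^ k) z.1 z.2 = 0)]
  -- the diagonal
  have h1 : ∑ z ∈ (Lam N J).filter (fun z => ph (fun n => n ^ k) z.1 z.2 = 0), kr g D m (ph (fun n => n ^ k) z.1 z.2) ≤
      (S g D m).card * ((J + k) * (2 * (N : ℝ) + 1) ^ J) := by
    calc ∑ z ∈ (Lam N J).filter (fun z => ph (fun n => n ^ k) z.1 z.2 = 0), kr g D m (ph (fun n => n ^ k) z.1 z.2)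
        ≤ ∑ _z ∈ (Lam N J).filter (fun z => ph (fun n => n ^ k) z.1 z.2 = 0), ((S g D m).card : ℝ) :=
          sum_le_sum fun z _ => kr_le _ _ _ _
      _ = (((Lam N J).filter (fun z => ph (fun n => n ^ k) z.1 z.2 = 0)).card : ℝ) * (S g D m).card := by
          rw [sum_const, nsmul_eq_mul]
      _ ≤ ((J + k) * (2 * (N : ℝ) + 1) ^ J) * (S g D m).card := by
          apply mul_le_mul_of_nonneg_right _ (Nat.cast_nonneg _)
          exact_mod_cast Lam_zero k N J hJ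
      _ = _ := by ring
  -- the other terms
  obtain ⟨H, hH⟩ : ∃ H : ℕ, H = 2 ^ J * N ^ k := ⟨_, rfl⟩
  have hmap : ∀ z ∈ (Lam N J).filter (fun z => ¬ ph (fun n => n ^ k) z.1 z.2 = 0),
      ph (fun n => n ^ k) z.1 z.2 ∈ (Icc (-(H : ℤ)) H).erase 0 := by
    intro z hz
    rw [mem_filter] at hz
    have hz1 := hz.1
    unfold Lam at hz1
    rw [mem_sigma, mem_LS] at hz1
    have h2 := ph_le k N z.1 z.2 hz1.2
    rw [hz1.1.1] at h2
    rw [mem_erase, mem_Icc, hH]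
    push_cast
    rw [abs_le] at h2
    exact ⟨hz.2, h2.1, h2.2⟩
  have h2 : ∑ z ∈ (Lam N J).filter (fun z => ¬ ph (fun n => n ^ k) z.1 z.2 = 0), kr g D m (ph (fun n => n ^ k) z.1 z.2) ≤
      ∑ x ∈ (Icc (-(H : ℤ)) H).erase 0, R * kr g D m x := by
    rw [← sum_fiberwise_of_maps_to hmap]
    refine sum_le_sum fun x hx => ?_
    rw [mem_erase, mem_Icc] at hx
    have h3 : ∀ z ∈ ((Lam N J).filter (fun z => ¬ ph (fun n => n ^ k) z.1 z.2 = 0)).filter
        (fun z => ph (fun n => n ^ k) z.1 z.2 = x), kr g D m (ph (fun n => n ^ k) z.1 z.2) = kr g D m x := by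
      intro z hz
      rw [(mem_filter.1 hz).2]
    rw [sum_congr rfl h3, sum_const, nsmul_eq_mul]
    apply mul_le_mul_of_nonneg_right _ (kr_nonneg _ _ _ _)
    have h4 : (((Lam N J).filter (fun z => ¬ ph (fun n => n ^ k) z.1 z.2 = 0)).filter
        (fun z => ph (fun n => n ^ k) z.1 z.2 = x)).card ≤ (2 * x.natAbs.divisors.card) ^ J * k := by
      refine (card_le_card ?_).trans (Lam_nonzero k N J x.natAbs.divisors.card hJ x hx.1 le_rfl)
      intro z hz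
      rw [mem_filter, mem_filter] at hz
      exact mem_filter.2 ⟨hz.1.1, hz.2⟩
    have h5 := hR x.natAbs (by omega) (by omega)
    refine le_trans ?_ h5
    exact_mod_cast h4
  have h3 : ∑ x ∈ (Icc (-(H : ℤ)) H).erase 0, kr g D m x ≤ 2 * ∑ t ∈ range (H + 1), kr g D m t := by
    have h4 : (Icc (-(H : ℤ)) H).erase 0 ⊆ ((range (H + 1)).image (fun t : ℕ => (t : ℤ))) ∪
        ((range (H + 1)).image (fun t : ℕ => -(t : ℤ))) := by
      intro x hx
      rw [mem_erase, mem_Icc] at hx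
      rw [mem_union, mem_image, mem_image]
      rcases le_total 0 x with h5 | h5
      · left
        exact ⟨x.natAbs, mem_range.2 (by omega), by omega⟩
      · right
        exact ⟨x.natAbs, mem_range.2 (by omega), by omega⟩
    refine (sum_le_sum_of_subset_of_nonneg h4 fun _ _ _ => kr_nonneg _ _ _ _).trans ?_
    have h5 : ∀ A B : Finset ℤ, ∑ x ∈ A ∪ B, kr g D m x ≤ ∑ x ∈ A, kr g D m x + ∑ x ∈ B, kr g D m x := by
      intro A B
      rw [← sum_union_inter]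
      have : 0 ≤ ∑ x ∈ A ∩ B, kr g D m x := sum_nonneg fun _ _ => kr_nonneg _ _ _ _
      linarith
    refine (h5 _ _).trans ?_
    rw [sum_image (fun a _ b _ hab => by simpa using hab), sum_image (fun a _ b _ hab => by simpa using hab)]
    simp only [kr_neg]
    rw [two_mul]
  have h4 := ker_upto (H := H + 1) h (by omega) (by rw [hH]; exact hm)
  have h5 : ∑ x ∈ (Icc (-(H : ℤ)) H).erase 0, R * kr g D m x ≤
      (S g D m).card * (2 * R * ((g : ℝ) * (2 ^ J * N ^ k + 1 : ℕ)) ^ κ) := by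
    rw [← mul_sum]
    calc R * ∑ x ∈ (Icc (-(H : ℤ)) H).erase 0, kr g D m x ≤ R * (2 * ∑ t ∈ range (H + 1), kr g D m t) :=
          mul_le_mul_of_nonneg_left h3 hR0
      _ ≤ R * (2 * ((S g D m).card * ((g : ℝ) * ((H + 1 : ℕ) : ℝ)) ^ κ)) := by gcongr
      _ = _ := by rw [hH]; ring
  rw [mul_add]
  exact add_le_add h1 (h2.trans h5)

end Pool.Agent.K9h59.WY
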