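import Pool.Agent.K9h59.WY.C
import Pool.Agent.TH181.MW.Max
import Pool.Agent.TH181.MW.Cov
import Pool.Agent.H373R2.T4.DivB

set_option autoImplicit false

/-! The exceptional set in the set of the real numbers with restricted digits. -/

namespace Pool.Agent.K9h59.WY

open Finset
open Pool.Agent.K9h59.CF
open Pool.Agent.W928.MW (e sm ev_pow ev_log)
open Pool.Agent.TH181.MW (S_MAX_t shift_le S_DIMG_t)

/-- the real numbers in `[0, 1]` with digits in `D` -/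
def CS (g : ℕ) (D : Finset ℕ) : Set ℝ :=
  {t : ℝ | ∃ d : ℕ → ℕ, (∀ i, d i ∈ D) ∧ HasSum (fun i => (d i : ℝ) / (g : ℝ) ^ (i + 1)) t}

/-- the integers of the first digits -/
def vv (g : ℕ) (d : ℕ → ℕ) : ℕ → ℕ
  | 0 => 0
  | m + 1 => g * vv g d m + d m

lemma vv_mem {g : ℕ} {D : Finset ℕ} (hg : 0 < g) (hD : D ⊆ range g) {d : ℕ → ℕ} (hd : ∀ i, d i ∈ D) (m : ℕ) :
    vv g d m ∈ S g (fun _ => D) m := by
  induction m with
  | zero => rw [S_zero]; simp [vv]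
  | succ m ih =>
    unfold S at ih ⊢
    rw [mem_filter, mem_range] at ih ⊢
    obtain ⟨h1, h2⟩ := ih
    have h3 : d m < g := mem_range.1 (hD (hd m))
    have h4 : vv g d (m + 1) = g * vv g d m + d m := rfl
    rw [h4]
    constructor
    · have h5 : vv g d m + 1 ≤ g ^ m := h1
      have h6 : g * (vv g d m + 1) ≤ g * g ^ m := Nat.mul_le_mul_left g h5
      rw [pow_succ']
      linarith [h6, h3]
    · intro i hi
      cases i with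
      | zero =>
        rw [pow_zero, Nat.div_one, Nat.mul_add_mod, Nat.mod_eq_of_lt h3]
        exact hd m
      | succ i =>
        have h5 : (g * vv g d m + d m) / g ^ (i + 1) = vv g d m / g ^ i := by
          rw [pow_succ', ← Nat.div_div_eq_div_mul]
          congr 1
          rw [Nat.mul_add_div hg, Nat.div_eq_of_lt h3, add_zero]
        rw [h5]
        exact h2 i (by omega)

lemma vv_sum {g : ℕ} (hg : 0 < g) (d : ℕ → ℕ) (m : ℕ) :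
    ∑ i ∈ range m, (d i : ℝ) / (g : ℝ) ^ (i + 1) = (vv g d m : ℝ) / ((g ^ m : ℕ) : ℝ) := by
  have hg0 : (0 : ℝ) < g := by exact_mod_cast hg
  induction m with
  | zero => simp [vv]
  | succ m ih =>
    rw [sum_range_succ, ih]
    have h4 : vv g d (m + 1) = g * vv g d m + d m := rfl
    rw [h4]
    push_cast
    field_simp
    ring

/-- approximation by the integers with restricted digits -/
lemma CS_approx {g : ℕ} {D : Finset ℕ} (hg : 2 ≤ g) (hD : D ⊆ range g) {t : ℝ} (ht : t ∈ CS g D) (m : ℕ) :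
    ∃ v ∈ S g (fun _ => D) m, (v : ℝ) / ((g ^ m : ℕ) : ℝ) ≤ t ∧ t ≤ (v : ℝ) / ((g ^ m : ℕ) : ℝ) + 1 / ((g ^ m : ℕ) : ℝ) := by
  obtain ⟨d, hd, hs⟩ := ht
  have hg2 : (2 : ℝ) ≤ g := by exact_mod_cast hg
  have hg0 : (0 : ℝ) < g := by linarith
  have h1 := (hasSum_nat_add_iff' m).2 hs
  rw [vv_sum (by omega) d m] at h1
  have hgeo : HasSum (fun i : ℕ => ((g : ℝ) - 1) / (g : ℝ) ^ (i + m + 1)) (1 / ((g ^ m : ℕ) : ℝ)) := by
    have h2 := hasSum_geometric_of_lt_one (r := 1 / (g : ℝ)) (by positivity) (by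
      rw [div_lt_one hg0]; linarith)
    have h3 := h2.mul_left (((g : ℝ) - 1) / (g : ℝ) ^ (m + 1))
    have e1 : (((g : ℝ) - 1) / (g : ℝ) ^ (m + 1)) * (1 - 1 / (g : ℝ))⁻¹ = 1 / ((g ^ m : ℕ) : ℝ) := by
      have h4 : (g : ℝ) - 1 ≠ 0 := by linarith
      have h5 : 1 - 1 / (g : ℝ) = ((g : ℝ) - 1) / g := by field_simp
      rw [h5, inv_div]
      push_cast
      field_simp
      ring
    rw [e1] at h3
    have e2 : (fun i : ℕ => ((g : ℝ) - 1) / (g : ℝ) ^ (i + m + 1)) =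
        fun i : ℕ => (((g : ℝ) - 1) / (g : ℝ) ^ (m + 1)) * (1 / (g : ℝ)) ^ i := by
      funext i
      rw [one_div, inv_pow, ← div_eq_mul_inv, div_div]
      congr 1
      rw [← pow_add]
      congr 1
      ring
    rw [e2]
    exact h3
  refine ⟨vv g d m, vv_mem (by omega) hD hd m, ?_, ?_⟩
  · have h2 := h1.nonneg (fun i => by positivity)
    linarith
  · have h2 := hasSum_le (fun i => ?_) h1 hgeo
    · linarith
    · have h3 : d (i + m) < g := mem_range.1 (hD (hd _))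
      have h4 : (d (i + m) : ℝ) ≤ g - 1 := by
        have : ((d (i + m) + 1 : ℕ) : ℝ) ≤ g := by exact_mod_cast h3
        push_cast at this
        linarith
      exact div_le_div_of_nonneg_right h4 (by positivity)

lemma card_S_const {g : ℕ} {D : Finset ℕ} (hg : 0 < g) (hD : D ⊆ range g) (m : ℕ) :
    (S g (fun _ => D) m).card = D.card ^ m := by
  rw [card_S hg m (fun _ _ => hD), prod_const, card_range]

/-- the number of the bad integers -/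
theorem few_bad (g : ℕ) (D : Finset ℕ) (κ : ℝ) (k j : ℕ) (hj : 1 ≤ j) (hjk : j + 1 < k) (hD : ∀ m, Dg g m κ (fun _ => D))
    (ε' : ℝ) (hε' : 0 < ε') :
    ∃ C : ℝ, 0 < C ∧ ∀ N : ℕ, 1 ≤ N → ∀ m : ℕ, m = Nat.clog g (2 ^ (j + 1) * N ^ k + 1) → ∀ μ : ℝ, 0 < μ → ∀ T : Finset ℕ,
      T ⊆ S g (fun _ => D) m → (∀ v ∈ T, ∃ ξ : ℝ, μ < ‖sm k N ((v : ℝ) / ((g ^ m : ℕ) : ℝ)) ξ‖) →
      (T.card : ℝ) * μ ^ (2 ^ (j + 1)) ≤ C * (N : ℝ) ^ (k * (Real.log D.card / Real.log g) +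
        ((2 ^ (j + 1) - (j + 1) - 1 : ℕ) : ℝ) + max ((j + 1 : ℕ) : ℝ) (k * κ) + ε') := by
  classical
  have h0 := hD 1
  have hg3 : 3 ≤ g := h0.hg
  have hg1 : 1 < g := by omega
  have hg0 : (0 : ℝ) < g := by exact_mod_cast (by omega : 0 < g)
  have hDg : D ⊆ range g := h0.hD 0 (by omega)
  have hne : D.Nonempty := h0.hne 0 (by omega)
  have hκ := h0.hκ
  have hlg : 0 < Real.log g := Real.log_pos (by exact_mod_cast hg1)
  obtain ⟨s, hs⟩ : ∃ s : ℝ, s = Real.log D.card / Real.log g := ⟨_, rfl⟩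
  obtain ⟨J, hJ⟩ : ∃ J : ℕ, J = j + 1 := ⟨_, rfl⟩
  have hJk : J < k := by omega
  obtain ⟨V, hV⟩ : ∃ V : ℕ, V = 2 ^ (j + 1) - (j + 1) - 1 := ⟨_, rfl⟩
  have hDc : (1 : ℝ) ≤ D.card := by exact_mod_cast card_pos.2 hne
  have hs0 : 0 ≤ s := by
    rw [hs]
    exact div_nonneg (Real.log_nonneg hDc) hlg.le
  have hgs : (g : ℝ) ^ s = D.card := by
    rw [Real.rpow_def_of_pos hg0, hs, mul_div_cancel₀ _ hlg.ne', Real.exp_log (by linarith)]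
  have hk0 : (0 : ℝ) < k := by exact_mod_cast (by omega : 0 < k)
  have hJ0 : (0 : ℝ) < J := by exact_mod_cast (by omega : 0 < J)
  obtain ⟨δ, hδ⟩ : ∃ δ : ℝ, δ = ε' / (J * k) := ⟨_, rfl⟩
  have hδ0 : 0 < δ := by rw [hδ]; positivity
  obtain ⟨C₀, hC₀, hdiv⟩ := Pool.Agent.H373R2.T4.DivB.div_bound hδ0
  -- the constants
  obtain ⟨C₁, hC₁⟩ : ∃ C₁ : ℝ, C₁ = (2 * (C₀ * ((2 : ℝ) ^ J) ^ δ)) ^ J * k := ⟨_, rfl⟩
  have hC₁0 : 0 < C₁ := by rw [hC₁]; positivity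
  obtain ⟨P, hP⟩ : ∃ P : ℝ, P = (2 : ℝ) ^ J + 1 := ⟨_, rfl⟩
  have hP0 : 0 < P := by rw [hP]; positivity
  obtain ⟨C₂, hC₂⟩ : ∃ C₂ : ℝ, C₂ = (3 : ℝ) ^ V * (((g : ℝ) * P) ^ s * ((J + k) * (3 : ℝ) ^ J + 2 * C₁ * ((g : ℝ) * P) ^ κ)) := ⟨_, rfl⟩
  refine ⟨C₂, by rw [hC₂]; positivity, ?_⟩
  intro N hN m hm μ hμ T hT hbad
  rw [← hJ] at hm ⊢
  have hN1 : (1 : ℝ) ≤ N := by exact_mod_cast hN
  have hN0 : (0 : ℝ) < N := by linarith
  have h2J : 1 ≤ 2 ^ J := Nat.one_le_two_pow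
  have hm1 : 2 ^ J * N ^ k + 1 ≤ g ^ m := by rw [hm]; exact Nat.le_pow_clog hg1 _
  have hNk : 1 ≤ N ^ k := Nat.one_le_pow _ _ hN
  have hprod : 1 ≤ 2 ^ J * N ^ k := Nat.mul_pos h2J hNk
  have hm2 : g ^ m ≤ g * (2 ^ J * N ^ k + 1) := by
    have h2 := Nat.pow_pred_clog_lt_self hg1 (show 1 < 2 ^ J * N ^ k + 1 by omega)
    have h3 : 0 < Nat.clog g (2 ^ J * N ^ k + 1) := Nat.clog_pos hg1 (by omega)
    have h4 : g ^ m = g * g ^ (Nat.clog g (2 ^ J * N ^ k + 1)).pred := by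
      rw [← pow_succ', hm]
      congr 1
      rw [Nat.pred_eq_sub_one]
      omega
    rw [h4]
    exact Nat.mul_le_mul_left g h2.le
  have hNkr : (1 : ℝ) ≤ (N : ℝ) ^ (k : ℝ) := Real.one_le_rpow hN1 hk0.le
  have hNkk : ((N ^ k : ℕ) : ℝ) = (N : ℝ) ^ (k : ℝ) := by push_cast; rw [Real.rpow_natCast]
  have hm3 : ((2 ^ J * N ^ k + 1 : ℕ) : ℝ) ≤ P * (N : ℝ) ^ (k : ℝ) := by
    have : ((2 ^ J * N ^ k + 1 : ℕ) : ℝ) = 2 ^ J * ((N ^ k : ℕ) : ℝ) + 1 := by push_cast; ring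
    rw [this, hNkk, hP]
    linarith
  -- the divisor bound
  obtain ⟨R, hR⟩ : ∃ R : ℝ, R = C₁ * (N : ℝ) ^ ε' := ⟨_, rfl⟩
  have hR0 : 0 ≤ R := by rw [hR]; positivity
  have hRd : ∀ n : ℕ, 1 ≤ n → n ≤ 2 ^ J * N ^ k → (2 * (n.divisors.card : ℝ)) ^ J * k ≤ R := by
    intro n hn1 hn2
    have h2 := hdiv n (by omega)
    have h3 : (n : ℝ) ^ δ ≤ ((2 : ℝ) ^ J) ^ δ * (N : ℝ) ^ (ε' / J) := by
      have h4 : (n : ℝ) ≤ 2 ^ J * (N : ℝ) ^ (k : ℝ) := by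
        rw [← hNkk]
        exact_mod_cast hn2
      calc (n : ℝ) ^ δ ≤ (2 ^ J * (N : ℝ) ^ (k : ℝ)) ^ δ :=
            Real.rpow_le_rpow (Nat.cast_nonneg _) h4 hδ0.le
        _ = _ := by
            rw [Real.mul_rpow (by positivity) (by positivity), ← Real.rpow_mul hN0.le]
            congr 2
            rw [hδ]
            field_simp
    have h5 : (n.divisors.card : ℝ) ≤ C₀ * (((2 : ℝ) ^ J) ^ δ * (N : ℝ) ^ (ε' / J)) :=
      h2.trans (mul_le_mul_of_nonneg_left h3 (by linarith))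
    have h6 : (2 * (n.divisors.card : ℝ)) ^ J ≤ (2 * (C₀ * (((2 : ℝ) ^ J) ^ δ * (N : ℝ) ^ (ε' / J)))) ^ J :=
      pow_le_pow_left₀ (by positivity) (by linarith) J
    have h7 : ((N : ℝ) ^ (ε' / J)) ^ J = (N : ℝ) ^ ε' := by
      rw [← Real.rpow_natCast, ← Real.rpow_mul hN0.le]
      congr 1
      field_simp
    calc (2 * (n.divisors.card : ℝ)) ^ J * k ≤ (2 * (C₀ * (((2 : ℝ) ^ J) ^ δ * (N : ℝ) ^ (ε' / J)))) ^ J * k := by
          gcongr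
      _ = R := by rw [hR, hC₁, ← h7]; ring
  have hmom := moment (hD m) hJk hm1 hRd hR0
  -- the powers
  have h1 : (T.card : ℝ) * μ ^ (2 ^ J) ≤ (2 * (N : ℝ) + 1) ^ V * ∑ v ∈ S g (fun _ => D) m, W k N J ((v : ℝ) / ((g ^ m : ℕ) : ℝ)) := by
    rw [mul_sum]
    calc (T.card : ℝ) * μ ^ (2 ^ J) = ∑ _v ∈ T, μ ^ (2 ^ J) := by rw [sum_const, nsmul_eq_mul]
      _ ≤ ∑ v ∈ T, (2 * (N : ℝ) + 1) ^ V * W k N J ((v : ℝ) / ((g ^ m : ℕ) : ℝ)) := by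
          refine sum_le_sum fun v hv => ?_
          obtain ⟨ξ, hξ⟩ := hbad v hv
          refine (pow_le_pow_left₀ hμ.le hξ.le (2 ^ J)).trans ?_
          rw [hJ, hV]
          exact W_sup k N j hj _ ξ
      _ ≤ _ := by
          apply sum_le_sum_of_subset_of_nonneg hT
          intro v _ _
          rw [hJ]
          have := W_nonneg k N j ((v : ℝ) / ((g ^ m : ℕ) : ℝ))
          positivity
  obtain ⟨E, hE⟩ : ∃ E : ℝ, E = max (J : ℝ) (k * κ) := ⟨_, rfl⟩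
  have hE2 : (J : ℝ) ≤ E := by rw [hE]; exact le_max_left _ _
  have hEk : k * κ ≤ E := by rw [hE]; exact le_max_right _ _
  have hV' : 2 ^ J - J - 1 = V := by rw [hV, hJ]
  rw [← hs, ← hE, hV']
  -- the size of `S`
  have h2 : ((S g (fun _ => D) m).card : ℝ) ≤ ((g : ℝ) * P) ^ s * (N : ℝ) ^ (k * s) := by
    rw [card_S_const (by omega) hDg]
    push_cast
    rw [← hgs, ← Real.rpow_natCast, ← Real.rpow_mul hg0.le, mul_comm s, Real.rpow_mul hg0.le, Real.rpow_natCast,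
      Real.rpow_mul hN0.le, ← Real.mul_rpow (by positivity) (by positivity)]
    apply Real.rpow_le_rpow (by positivity) _ hs0
    have h3 : ((g ^ m : ℕ) : ℝ) ≤ g * ((2 ^ J * N ^ k + 1 : ℕ) : ℝ) := by exact_mod_cast hm2
    calc (g : ℝ) ^ m = ((g ^ m : ℕ) : ℝ) := by push_cast; rfl
      _ ≤ g * ((2 ^ J * N ^ k + 1 : ℕ) : ℝ) := h3
      _ ≤ g * (P * (N : ℝ) ^ (k : ℝ)) := mul_le_mul_of_nonneg_left hm3 hg0.le
      _ = g * P * (N : ℝ) ^ (k : ℝ) := by ring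
  -- the main bound
  have h3N : 2 * (N : ℝ) + 1 ≤ 3 * N := by linarith
  have hNE : (N : ℝ) ^ (J : ℝ) ≤ (N : ℝ) ^ (E + ε') := Real.rpow_le_rpow_of_exponent_le hN1 (by linarith)
  have h3 : (J + k) * (2 * (N : ℝ) + 1) ^ J + 2 * R * ((g : ℝ) * (2 ^ J * N ^ k + 1 : ℕ)) ^ κ ≤
      ((J + k) * (3 : ℝ) ^ J + 2 * C₁ * ((g : ℝ) * P) ^ κ) * (N : ℝ) ^ (E + ε') := by
    have h4 : (2 * (N : ℝ) + 1) ^ J ≤ (3 : ℝ) ^ J * (N : ℝ) ^ (E + ε') := by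
      calc (2 * (N : ℝ) + 1) ^ J ≤ (3 * (N : ℝ)) ^ J := pow_le_pow_left₀ (by positivity) h3N J
        _ = (3 : ℝ) ^ J * (N : ℝ) ^ (J : ℝ) := by rw [mul_pow, Real.rpow_natCast]
        _ ≤ _ := by gcongr
    have h5 : ((g : ℝ) * (2 ^ J * N ^ k + 1 : ℕ)) ^ κ ≤ ((g : ℝ) * P) ^ κ * (N : ℝ) ^ (k * κ) := by
      rw [Real.rpow_mul hN0.le, ← Real.mul_rpow (by positivity) (by positivity)]
      apply Real.rpow_le_rpow (by positivity) _ hκ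
      calc (g : ℝ) * (2 ^ J * N ^ k + 1 : ℕ) ≤ g * (P * (N : ℝ) ^ (k : ℝ)) := mul_le_mul_of_nonneg_left hm3 hg0.le
        _ = _ := by ring
    have h6 : (N : ℝ) ^ ε' * (N : ℝ) ^ (k * κ) ≤ (N : ℝ) ^ (E + ε') := by
      rw [← Real.rpow_add hN0]
      exact Real.rpow_le_rpow_of_exponent_le hN1 (by linarith)
    calc (J + k) * (2 * (N : ℝ) + 1) ^ J + 2 * R * ((g : ℝ) * (2 ^ J * N ^ k + 1 : ℕ)) ^ κ
        ≤ (J + k) * ((3 : ℝ) ^ J * (N : ℝ) ^ (E + ε')) + 2 * R * (((g : ℝ) * P) ^ κ * (N : ℝ) ^ (k * κ)) := by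
          gcongr
      _ = (J + k) * ((3 : ℝ) ^ J * (N : ℝ) ^ (E + ε')) + 2 * C₁ * ((g : ℝ) * P) ^ κ * ((N : ℝ) ^ ε' * (N : ℝ) ^ (k * κ)) := by
          rw [hR]; ring
      _ ≤ (J + k) * ((3 : ℝ) ^ J * (N : ℝ) ^ (E + ε')) + 2 * C₁ * ((g : ℝ) * P) ^ κ * (N : ℝ) ^ (E + ε') := by gcongr
      _ = _ := by ring
  have hWs : 0 ≤ ∑ v ∈ S g (fun _ => D) m, W k N J ((v : ℝ) / ((g ^ m : ℕ) : ℝ)) := by
    rw [hJ]
    exact sum_nonneg fun v _ => W_nonneg k N j _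
  calc (T.card : ℝ) * μ ^ (2 ^ J) ≤ (2 * (N : ℝ) + 1) ^ V * ∑ v ∈ S g (fun _ => D) m, W k N J ((v : ℝ) / ((g ^ m : ℕ) : ℝ)) := h1
    _ ≤ (3 * N) ^ V * (((g : ℝ) * P) ^ s * (N : ℝ) ^ (k * s) *
        (((J + k) * (3 : ℝ) ^ J + 2 * C₁ * ((g : ℝ) * P) ^ κ) * (N : ℝ) ^ (E + ε'))) := by
        apply mul_le_mul (pow_le_pow_left₀ (by positivity) h3N V) _ hWs (by positivity)
        exact hmom.trans (mul_le_mul h2 h3 (by positivity) (by positivity))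
    _ = C₂ * ((N : ℝ) ^ (V : ℝ) * (N : ℝ) ^ (k * s) * (N : ℝ) ^ (E + ε')) := by
        rw [hC₂, Real.rpow_natCast, mul_pow]; ring
    _ = C₂ * (N : ℝ) ^ (k * s + V + E + ε') := by
        rw [← Real.rpow_add hN0, ← Real.rpow_add hN0]
        congr 2
        ring

end Pool.Agent.K9h59.WY
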