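import Pool.Agent.K9h59.WY.D

set_option autoImplicit false

/-! The Hausdorff dimension of the exceptional set. -/

namespace Pool.Agent.K9h59.WY

open Finset MeasureTheory
open Pool.Agent.K9h59.CF
open Pool.Agent.W928.MW (e sm sm_le ev_pow ev_log)
open Pool.Agent.TH181.MW (S_MAX_t shift_le S_DIMG_t)

/-- the exceptional real numbers at the scale `2 ^ i` -/
def Bad (g : ℕ) (D : Finset ℕ) (k : ℕ) (c : ℝ) (i : ℕ) : Set ℝ :=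
  {t : ℝ | t ∈ CS g D ∧ ∃ M : ℕ, M ≤ 2 ^ i ∧ 2 ^ i ≤ 2 * M ∧ ∃ ξ : ℝ, (M : ℝ) ^ c < ‖sm k M t ξ‖}

/-- the exponent of the number of intervals -/
noncomputable def ex (g : ℕ) (D : Finset ℕ) (κ : ℝ) (k j : ℕ) : ℝ :=
  k * (Real.log D.card / Real.log g) + ((2 ^ (j + 1) - (j + 1) - 1 : ℕ) : ℝ) + max ((j + 1 : ℕ) : ℝ) (k * κ)

theorem cover (g : ℕ) (D : Finset ℕ) (κ : ℝ) (k j : ℕ) (hj : 1 ≤ j) (hk : j + 1 < k) (hD : ∀ m, Dg g m κ (fun _ => D)) (c : ℝ) (hc : 0 < c)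
    (ε' : ℝ) (hε' : 0 < ε') : ∃ i0 : ℕ, ∀ i : ℕ, i0 ≤ i → ∃ T : Finset ℝ,
      (T.card : ℝ) ≤ ((2 : ℝ) ^ i) ^ (ex g D κ k j - 2 ^ (j + 1) * c + (2 ^ (j + 1) + 2) * ε') ∧
      Bad g D k c i ⊆ ⋃ x ∈ T, Set.Icc x (x + ((2 : ℝ) ^ i) ^ (-(k : ℝ))) := by
  classical
  obtain ⟨C, hC0, hC⟩ := few_bad g D κ k j hj hk hD ε' hε'
  obtain ⟨i1, h1⟩ := ev_log ε' hε' ((1 + 2 * Real.pi * 2 ^ k) * (2 : ℝ) ^ c)
  obtain ⟨i2, h2⟩ := ev_pow ε' hε' C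
  refine ⟨i1 + i2, fun i hi => ?_⟩
  have g1 := h1 i (by omega)
  have g2 := h2 i (by omega)
  have h0 := hD 1
  have hg3 : 3 ≤ g := h0.hg
  have hDg : D ⊆ range g := h0.hD 0 (by omega)
  obtain ⟨X, hX⟩ : ∃ X : ℝ, X = (2 : ℝ) ^ i := ⟨_, rfl⟩
  rw [← hX] at g1 g2 ⊢
  have hX1 : (1 : ℝ) ≤ X := by rw [hX]; exact one_le_pow₀ (by norm_num)
  have hX0 : (0 : ℝ) < X := by linarith
  have hNX : (((2 ^ i : ℕ) : ℕ) : ℝ) = X := by rw [hX]; push_cast; rfl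
  obtain ⟨N, hN⟩ : ∃ N : ℕ, N = 2 ^ i := ⟨_, rfl⟩
  have hN1 : 1 ≤ N := by rw [hN]; exact Nat.one_le_two_pow
  have hNX' : (N : ℝ) = X := by rw [hN]; exact hNX
  obtain ⟨m, hm⟩ : ∃ m : ℕ, m = Nat.clog g (2 ^ (j + 1) * N ^ k + 1) := ⟨_, rfl⟩
  have hm1 : 2 ^ (j + 1) * N ^ k + 1 ≤ g ^ m := by rw [hm]; exact Nat.le_pow_clog (by omega) _
  obtain ⟨μ, hμ⟩ : ∃ μ : ℝ, μ = X ^ (c - ε') := ⟨_, rfl⟩
  have hμ0 : 0 < μ := by rw [hμ]; positivity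
  have hgm : (0 : ℝ) < ((g ^ m : ℕ) : ℝ) := by exact_mod_cast Nat.pow_pos (by omega)
  have hgm2 : 1 / ((g ^ m : ℕ) : ℝ) ≤ 1 / X ^ k := by
    apply one_div_le_one_div_of_le (by positivity)
    have h3 : ((2 ^ (j + 1) * N ^ k + 1 : ℕ) : ℝ) ≤ ((g ^ m : ℕ) : ℝ) := by exact_mod_cast hm1
    have h4 : ((2 ^ (j + 1) * N ^ k + 1 : ℕ) : ℝ) = 2 ^ (j + 1) * X ^ k + 1 := by push_cast; rw [hNX']
    have h5 : 0 < X ^ k := by positivity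
    have h6 : (1 : ℝ) ≤ 2 ^ (j + 1) := one_le_pow₀ (by norm_num)
    nlinarith
  obtain ⟨T0, hT0⟩ : ∃ T0 : Finset ℕ, T0 = (S g (fun _ => D) m).filter
    (fun v : ℕ => ∃ ξ : ℝ, μ < ‖sm k N ((v : ℝ) / ((g ^ m : ℕ) : ℝ)) ξ‖) := ⟨_, rfl⟩
  refine ⟨T0.image (fun v : ℕ => (v : ℝ) / ((g ^ m : ℕ) : ℝ)), ?_, ?_⟩
  · have h3 := hC N hN1 m hm μ hμ0 T0 (by rw [hT0]; exact filter_subset _ _) (by
      intro v hv
      rw [hT0, mem_filter] at hv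
      exact hv.2)
    rw [hNX'] at h3
    have h4 : μ ^ (2 ^ (j + 1)) = X ^ (2 ^ (j + 1) * (c - ε')) := by
      rw [hμ, ← Real.rpow_natCast, ← Real.rpow_mul hX0.le]
      congr 1
      push_cast
      ring
    have h5 : ((T0.image (fun v : ℕ => (v : ℝ) / ((g ^ m : ℕ) : ℝ))).card : ℝ) ≤ T0.card := by
      exact_mod_cast card_image_le
    refine h5.trans ?_
    have h6 : (T0.card : ℝ) ≤ C * X ^ (ex g D κ k j + ε') / μ ^ (2 ^ (j + 1)) := by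
      rw [le_div_iff₀ (by positivity)]
      exact h3
    refine h6.trans ?_
    rw [h4, mul_div_assoc, ← Real.rpow_sub hX0]
    calc C * X ^ (ex g D κ k j + ε' - 2 ^ (j + 1) * (c - ε')) ≤ X ^ ε' * X ^ (ex g D κ k j + ε' - 2 ^ (j + 1) * (c - ε')) :=
          mul_le_mul_of_nonneg_right g2 (by positivity)
      _ = X ^ (ex g D κ k j - 2 ^ (j + 1) * c + (2 ^ (j + 1) + 2) * ε') := by
          rw [← Real.rpow_add hX0]
          congr 1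
          ring
  · rintro t ⟨htC, M, hM1, hM2, ξ, hξ⟩
    obtain ⟨v, hv, hv1, hv2⟩ := CS_approx (by omega) hDg htC m
    obtain ⟨t', ht'⟩ : ∃ t' : ℝ, t' = (v : ℝ) / ((g ^ m : ℕ) : ℝ) := ⟨_, rfl⟩
    rw [← ht'] at hv1 hv2
    have htt : |t - t'| ≤ 1 / (N : ℝ) ^ k := by
      rw [hNX', abs_of_nonneg (by linarith)]
      linarith
    have hvT : v ∈ T0 := by
      rw [hT0, mem_filter]
      refine ⟨hv, ?_⟩
      by_contra hcon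
      push Not at hcon
      rw [← ht'] at hcon
      have hMN : M ≤ N := by rw [hN]; exact hM1
      have h3 : ∀ m' : ℕ, m' ≤ N → ‖sm k m' t' ξ‖ ≤ (4 + 4 * Real.log N) * μ := fun m' hm' =>
        S_MAX_t k N m' t' μ hN1 hm' hcon ξ
      have hlog : 0 ≤ Real.log N := Real.log_natCast_nonneg N
      have h4 := shift_le k N M t t' ξ ((4 + 4 * Real.log N) * μ) hN1 hMN (by positivity) htt h3
      rw [hNX'] at h4
      have h5 : (X / 2) ^ c ≤ (M : ℝ) ^ c := by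
        apply Real.rpow_le_rpow (by positivity) _ hc.le
        have : ((2 ^ i : ℕ) : ℝ) ≤ ((2 * M : ℕ) : ℝ) := by exact_mod_cast hM2
        rw [hNX] at this
        push_cast at this
        linarith
      have h6 : (X / 2) ^ c = X ^ c / (2 : ℝ) ^ c := Real.div_rpow hX0.le (by norm_num) c
      have h7 : (1 + 2 * Real.pi * 2 ^ k) * ((4 + 4 * Real.log X) * μ) ≤ X ^ c / (2 : ℝ) ^ c := by
        rw [le_div_iff₀ (by positivity)]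
        have h8 : X ^ c = X ^ ε' * μ := by
          rw [hμ, ← Real.rpow_add hX0]
          congr 1
          ring
        rw [h8]
        calc (1 + 2 * Real.pi * 2 ^ k) * ((4 + 4 * Real.log X) * μ) * (2 : ℝ) ^ c =
              ((1 + 2 * Real.pi * 2 ^ k) * (2 : ℝ) ^ c * (4 + 4 * Real.log X)) * μ := by ring
          _ ≤ X ^ ε' * μ := mul_le_mul_of_nonneg_right g1 hμ0.le
      have h9 : (M : ℝ) ^ c < (M : ℝ) ^ c := by
        calc (M : ℝ) ^ c < ‖sm k M t ξ‖ := hξ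
          _ ≤ (1 + 2 * Real.pi * 2 ^ k) * ((4 + 4 * Real.log X) * μ) := h4
          _ ≤ X ^ c / (2 : ℝ) ^ c := h7
          _ = (X / 2) ^ c := h6.symm
          _ ≤ (M : ℝ) ^ c := h5
      exact lt_irrefl _ h9
    rw [Set.mem_iUnion₂]
    refine ⟨t', mem_image.2 ⟨v, hvT, ht'.symm⟩, hv1, hv2.trans ?_⟩
    rw [Real.rpow_neg hX0.le, Real.rpow_natCast, ← one_div]
    linarith

theorem dim_lim (g : ℕ) (D : Finset ℕ) (κ : ℝ) (k j : ℕ) (hj : 1 ≤ j) (hk : j + 1 < k) (hD : ∀ m, Dg g m κ (fun _ => D)) (c : ℝ) (hc : 0 < c)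
    (d : ℝ) (hd : 0 < d) (hdd : ex g D κ k j - 2 ^ (j + 1) * c < k * d) :
    dimH {t : ℝ | ∀ i1 : ℕ, ∃ i : ℕ, i1 ≤ i ∧ t ∈ Bad g D k c i} ≤ ENNReal.ofReal d := by
  have hJ : (0 : ℝ) < 2 ^ (j + 1) + 2 := by positivity
  obtain ⟨ε', hε'⟩ : ∃ ε' : ℝ, ε' = (k * d - (ex g D κ k j - 2 ^ (j + 1) * c)) / (2 * (2 ^ (j + 1) + 2)) := ⟨_, rfl⟩
  have h0 : 0 < k * d - (ex g D κ k j - 2 ^ (j + 1) * c) := by linarith
  have h1 : 0 < ε' := by rw [hε']; positivity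
  have h2 : (2 ^ (j + 1) + 2) * ε' = (k * d - (ex g D κ k j - 2 ^ (j + 1) * c)) / 2 := by
    rw [hε']
    field_simp
  have hk0 : (0 : ℝ) < k := by exact_mod_cast (by omega : 0 < k)
  refine S_DIMG_t (ex g D κ k j - 2 ^ (j + 1) * c + (2 ^ (j + 1) + 2) * ε') k d (Bad g D k c) hk0 hd (by rw [h2]; linarith) ?_
  exact cover g D κ k j hj hk hD c hc ε' h1

/-- numbers which are exceptional at few scales -/
theorem flat_of (g : ℕ) (D : Finset ℕ) (k : ℕ) (c : ℝ) (hc : 0 < c) (t : ℝ) (ht : t ∈ CS g D)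
    (hcon : ¬ ∀ i1 : ℕ, ∃ i : ℕ, i1 ≤ i ∧ t ∈ Bad g D k c i) :
    ∃ C : ℝ, ∀ N : ℕ, 1 ≤ N → ∀ ξ : ℝ, ‖sm k N t ξ‖ ≤ C * (N : ℝ) ^ c := by
  push Not at hcon
  obtain ⟨i1, hcon⟩ := hcon
  refine ⟨(2 : ℝ) ^ i1 + 1, fun N hN ξ => ?_⟩
  have hN1 : (1 : ℝ) ≤ N := by exact_mod_cast hN
  have hNc : (1 : ℝ) ≤ (N : ℝ) ^ c := Real.one_le_rpow hN1 hc.le
  have hp : (0 : ℝ) < (2 : ℝ) ^ i1 := by positivity
  rcases le_total N (2 ^ i1) with hN2 | hN2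
  · have h4 : (N : ℝ) ≤ (2 : ℝ) ^ i1 := by exact_mod_cast hN2
    refine (sm_le k N t ξ).trans ?_
    nlinarith
  · obtain ⟨i, hi1, hi2⟩ : ∃ i : ℕ, N ≤ 2 ^ i ∧ 2 ^ i ≤ 2 * N := by
      refine ⟨Nat.log 2 N + 1, (Nat.lt_pow_succ_log_self (by norm_num) N).le, ?_⟩
      have := Nat.pow_log_le_self 2 (show N ≠ 0 by omega)
      rw [pow_succ]
      omega
    have hii : i1 ≤ i := by
      have : 2 ^ i1 ≤ 2 ^ i := hN2.trans hi1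
      exact (Nat.pow_le_pow_iff_right (by norm_num)).mp this
    have h5 := hcon i hii
    have h6 : ‖sm k N t ξ‖ ≤ (N : ℝ) ^ c := by
      by_contra h7
      push Not at h7
      exact h5 ⟨ht, N, hi1, hi2, ξ, h7⟩
    nlinarith

/-- the dimension -/
theorem dim_flat (g : ℕ) (D : Finset ℕ) (κ : ℝ) (k j : ℕ) (hj : 1 ≤ j) (hk : j + 1 < k) (hD : ∀ m, Dg g m κ (fun _ => D)) (c : ℝ) (hc : 0 < c) :
    dimH {t : ℝ | t ∈ CS g D ∧ ¬ ∃ C : ℝ, ∀ N : ℕ, 1 ≤ N → ∀ ξ : ℝ, ‖sm k N t ξ‖ ≤ C * (N : ℝ) ^ c} ≤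
      ENNReal.ofReal ((ex g D κ k j - 2 ^ (j + 1) * c) / k) := by
  have hk0 : (0 : ℝ) < k := by exact_mod_cast (by omega : 0 < k)
  have hsub : {t : ℝ | t ∈ CS g D ∧ ¬ ∃ C : ℝ, ∀ N : ℕ, 1 ≤ N → ∀ ξ : ℝ, ‖sm k N t ξ‖ ≤ C * (N : ℝ) ^ c} ⊆
      {t : ℝ | ∀ i1 : ℕ, ∃ i : ℕ, i1 ≤ i ∧ t ∈ Bad g D k c i} := by
    rintro t ⟨ht1, ht2⟩
    by_contra hcon
    exact ht2 (flat_of g D k c hc t ht1 hcon)
  refine (dimH_mono hsub).trans ?_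
  apply ENNReal.le_of_forall_pos_le_add
  intro δ hδ _
  have hδ' : (0 : ℝ) < δ := by exact_mod_cast hδ
  have h1 := dim_lim g D κ k j hj hk hD c hc (max ((ex g D κ k j - 2 ^ (j + 1) * c) / k) 0 + δ) (by
    have := le_max_right ((ex g D κ k j - 2 ^ (j + 1) * c) / k) 0
    linarith) (by
    have h2 := le_max_left ((ex g D κ k j - 2 ^ (j + 1) * c) / k) 0
    have h3 : (ex g D κ k j - 2 ^ (j + 1) * c) / k < max ((ex g D κ k j - 2 ^ (j + 1) * c) / k) 0 + δ := by linarith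
    rw [div_lt_iff₀ hk0] at h3
    linarith)
  refine h1.trans ?_
  rw [ENNReal.ofReal_add (le_max_right _ _) hδ'.le]
  refine add_le_add (le_of_eq ?_) (le_of_eq ?_)
  · rw [ENNReal.ofReal_max, ENNReal.ofReal_zero, max_eq_left zero_le]
  · exact ENNReal.ofReal_coe_nnreal

end Pool.Agent.K9h59.WY
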